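import Pool.Agent.Lib.MP_0287c7_lc.U.R5

/-! The value of the Walsh transform at zero; quotients of Gold exponents over the naturals. -/

set_option autoImplicit false
open Finset

namespace Pool.Agent.Lib.MP_0287c7_lc.U

open Pool.Agent.Lib.MP_0287c7_lc

lemma sum_pow_dvd {G : Type} [CommGroup G] [IsCyclic G] [Fintype G] (d : ℕ) (g : G → ℤ) :
    (((Nat.card G).gcd d : ℕ) : ℤ) ∣ ∑ c, g (c ^ d) := by
  classical
  rw [← sum_fiberwise_of_maps_to (s := univ) (t := univ) (g := fun c : G => c ^ d)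
    (fun _ _ => mem_univ _)]
  refine dvd_sum fun y _ => ?_
  rw [sum_congr rfl (g := fun _ => g y) (fun c hc => by rw [(mem_filter.1 hc).2]), sum_const,
    nsmul_eq_mul]
  refine Dvd.dvd.mul_right ?_ _
  by_cases hy : y ∈ Set.range (powMonoidHom d : G →* G)
  · have h1 := MonoidHom.card_fiber_eq_of_mem_range (powMonoidHom d : G →* G) hy ⟨1, map_one _⟩
    have h2 := IsCyclic.card_powMonoidHom_ker G d
    have h3 : Nat.card (powMonoidHom d : G →* G).ker
        = #{g | (powMonoidHom d : G →* G) g = 1} :=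
      Nat.subtype_card _ fun x => by simp [MonoidHom.mem_ker]
    simp only [powMonoidHom_apply] at h1 h3
    rw [h1, ← h3, h2]
  · have h1 : ({i | i ^ d = y} : Finset G) = ∅ := filter_eq_empty_iff.2 fun c _ hc => hy ⟨c, hc⟩
    rw [h1]
    simp

variable {F : Type} [Field F] [Fintype F]

lemma sum_units [DecidableEq F] (f : F → ℤ) : ∑ c : F, f c = f 0 + ∑ c : Fˣ, f c := by
  rw [← add_sum_erase univ f (mem_univ 0), sum_subtype (p := fun c : F => c ≠ 0) _ (by simp) f,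
    ← unitsEquivNeZero.sum_comp fun c : {a : F // a ≠ 0} => f c]
  rfl

lemma canteaut {n d : ℕ} (hF : Fintype.card F = 2 ^ n) (hd : 0 < d) {a : F} (hb : Bent n d a) :
    (2 ^ n - 1).gcd d ∣ 2 ^ (n / 2) - 1 ∨ (2 ^ n - 1).gcd d ∣ 2 ^ (n / 2) + 1 := by
  classical
  have h1 := hb 0
  simp only [zero_mul, sg_zero, mul_one] at h1
  rw [sum_units, zero_pow hd.ne', mul_zero, sg_zero] at h1
  have h2 := sum_pow_dvd (G := Fˣ) d fun y => sg n (a * y)
  rw [Nat.card_units, Nat.card_eq_fintype_card, hF] at h2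
  simp only [Units.val_pow_eq_pow_val] at h2
  rcases abs_eq (by positivity) |>.1 h1 with h | h
  · left
    rw [← Int.natCast_dvd_natCast, Nat.cast_sub Nat.one_le_two_pow]
    push_cast
    rwa [← h, add_sub_cancel_left]
  · right
    rw [← Int.natCast_dvd_natCast]
    push_cast
    rw [← dvd_neg] at h2
    have e : (2 : ℤ) ^ (n / 2) + 1 = -∑ c : Fˣ, sg n (a * (c : F) ^ d) := by linear_combination h
    rwa [e]

lemma gq [CharP F 2] {n : ℕ} (he : Even n) (hn : 2 ≤ n) (hF : Fintype.card F = 2 ^ n)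
    {d j k l : ℕ} (hd : 0 < d) (H : 2 ^ j * d * (2 ^ k + 1) ≡ 2 ^ l + 1 [MOD 2 ^ n - 1])
    {a : F} (ha : a ≠ 0) (hb' : Bent n d a) :
    ∃ e : ℕ, ((1 ≤ l ∧ Even (n / Nat.gcd n l) ∧ e = 2 ^ l + 1) ∨
      (1 ≤ k ∧ Nat.gcd k n = 1 ∧ e = 2 ^ (2 * k) - 2 ^ k + 1)) ∧
        ∃ i : ℕ, e ≡ 2 ^ i * d [MOD 2 ^ n - 1] := by
  have : NeZero n := ⟨by omega⟩
  have hp : 0 < 2 ^ j * d := by positivity
  simp only [← ZMod.natCast_eq_natCast_iff] at H ⊢
  have h := ratio hF he (pow_ne_zero _ ha) hp (hb'.equiv hF hd hp .rfl) (k := k) (l := l) (by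
    rw [pow_val_cast two_n, pow_val_cast two_n]
    push_cast at H ⊢
    linear_combination H)
  rw [pow_val_cast two_n, pow_val_cast two_n] at h
  rcases h with ⟨h1, h2⟩ | ⟨h1, i, h2⟩
  · refine ⟨_, .inl ⟨Nat.pos_of_ne_zero fun h => h1 1 odd_one (by simp [h]), ?_, rfl⟩, j + 1, ?_⟩
    · refine Nat.not_odd_iff_even.1 fun h => h1 _ h ?_
      rw [← Nat.cast_mul, ZMod.natCast_eq_zero_iff, Nat.div_mul_right_comm (Nat.gcd_dvd_left n l),
        Nat.mul_div_assoc _ (Nat.gcd_dvd_right n l)]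
      exact dvd_mul_right _ _
    · push_cast at h2 ⊢
      linear_combination h2
  · rw [ZMod.val_natCast, ← Nat.gcd_rec, Nat.gcd_comm] at h1
    refine ⟨_, .inr ⟨Nat.pos_of_ne_zero fun h => ?_, h1, rfl⟩, i + j, ?_⟩
    · rw [h, Nat.gcd_zero_left] at h1
      omega
    · rw [Nat.cast_add, Nat.cast_sub (Nat.pow_le_pow_right two_pos (by omega))]
      push_cast at h2 ⊢
      linear_combination h2

end Pool.Agent.Lib.MP_0287c7_lc.U
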