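import Pool.Agent.Lib.MP_0287c7_lc.U.Main

/-! The classes of the two older statements have a sparse relation. -/

set_option autoImplicit false

namespace Pool.Agent.Lib.MP_0287c7_lc.U

theorem rel_cubic {n d : ℕ} (hn : 2 ≤ n) (hw : (Nat.digits 2 d).sum ≤ 3) : Rel n d := by
  have h1 : 2 ^ 2 ≤ 2 ^ n := Nat.pow_le_pow_right (by norm_num) hn
  refine ⟨1, d, one_pos, by omega, by rw [one_mul], ?_⟩
  have h2 : W d ≤ 3 := hw
  rw [W_one]
  omega

theorem rel_quotient {n d j k l : ℕ} (hn : 3 ≤ n)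
    (H : 2 ^ j * d * (2 ^ k + 1) ≡ 2 ^ l + 1 [MOD 2 ^ n - 1]) : Rel n d := by
  refine Rel.of (r := 2 ^ j * (2 ^ k + 1)) (s := 2 ^ l + 1) (by omega) (not_dvd hn j k)
    (by rwa [mul_right_comm]) ?_
  have h1 := W2 k 0
  have h2 := W2 l 0
  rw [pow_zero] at h1 h2
  rw [W_shift]
  omega

end Pool.Agent.Lib.MP_0287c7_lc.U
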