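import Pool.Agent.Lib.MP_0287c7_lc.U.Wt
import Pool.Agent.Lib.MP_0287c7_lc.U.Can

/-! Bent exponents with a sparse relation are those of the five families. -/

set_option autoImplicit false

namespace Pool.Agent.Lib.MP_0287c7_lc.U

open Pool.Agent.Lib.MP_0287c7_lc

/-- equivalence to one of the five families -/
def Fam (n d : ℕ) : Prop :=
  ∃ e : ℕ,
    ((∃ i : ℕ, 1 ≤ i ∧ Even (n / Nat.gcd n i) ∧ e = 2 ^ i + 1) ∨
     (∃ r : ℕ, Nat.gcd r (2 ^ (n / 2) + 1) = 1 ∧ e = r * (2 ^ (n / 2) - 1)) ∨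
     (∃ k : ℕ, 1 ≤ k ∧ Nat.gcd k n = 1 ∧ e = 2 ^ (2 * k) - 2 ^ k + 1) ∨
     (∃ k : ℕ, n = 4 * k ∧ Odd k ∧ e = (2 ^ k + 1) ^ 2) ∨
     (∃ k : ℕ, n = 6 * k ∧ e = 2 ^ (2 * k) + 2 ^ k + 1)) ∧
    ∃ j : ℕ, e ≡ 2 ^ j * d [MOD 2 ^ n - 1]

/-- a sparse relation -/
def Rel (n d : ℕ) : Prop :=
  ∃ r s : ℕ, 0 < r ∧ r < 2 ^ n - 1 ∧ r * d ≡ s [MOD 2 ^ n - 1] ∧ W r + max 1 (W s) ≤ 4

lemma one_mod (n : ℕ) : 1 ≡ 2 ^ n [MOD 2 ^ n - 1] :=
  (Nat.modEq_iff_dvd' Nat.one_le_two_pow).2 dvd_rfl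

/-- cancel a power of two -/
lemma cancel_pow {n : ℕ} (hn : 0 < n) (i x : ℕ) :
    2 ^ (i * (n - 1)) * (2 ^ i * x) ≡ x [MOD 2 ^ n - 1] := by
  have h := ((one_mod n).pow i).mul_right x
  have e : 2 ^ (i * (n - 1)) * (2 ^ i * x) = (2 ^ n) ^ i * x := by
    rw [← mul_assoc, ← pow_add, ← pow_mul, ← mul_add_one, show n - 1 + 1 = n by omega, mul_comm i n]
  rw [one_pow, one_mul] at h
  rw [e]
  exact h.symm

lemma Rel.of {n d r s : ℕ} (hn : 0 < n) (h0 : ¬ 2 ^ n - 1 ∣ r) (h : r * d ≡ s [MOD 2 ^ n - 1])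
    (hw : W r + max 1 (W s) ≤ 4) : Rel n d := by
  have h1 : 2 ^ 1 ≤ 2 ^ n := Nat.pow_le_pow_right (by norm_num) hn
  refine ⟨r % (2 ^ n - 1), s, Nat.pos_of_ne_zero fun h => h0 (Nat.dvd_of_mod_eq_zero h),
    Nat.mod_lt _ (by omega), ((Nat.mod_modEq _ _).mul_right d).trans h, ?_⟩
  have := W_mod hn r
  omega

lemma W2 (i j : ℕ) : W (2 ^ i + 2 ^ j) ≤ 2 := by
  have := W_add (2 ^ i) (2 ^ j)
  rwa [W_pow, W_pow] at this

lemma W3 (i j k : ℕ) : W (2 ^ i + 2 ^ j + 2 ^ k) ≤ 3 := by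
  have := W_add (2 ^ i + 2 ^ j) (2 ^ k)
  have := W2 i j
  have := W_pow k
  omega

lemma Fam.rel {n d : ℕ} (he : Even n) (hn : 3 ≤ n) (h : Fam n d) : Rel n d := by
  obtain ⟨e, h1, j, h2⟩ := h
  have small : W e ≤ 3 → Rel n d := fun hw => by
    refine Rel.of (r := 2 ^ j) (s := e) (by omega) (fun h => not_dvd hn j 0 (h.mul_right _))
      h2.symm ?_
    rw [W_pow]
    omega
  have quot : ∀ k s : ℕ, (2 ^ k + 1) * e ≡ s [MOD 2 ^ n - 1] → W s ≤ 2 → Rel n d :=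
    fun k s hs hw => by
      refine Rel.of (r := 2 ^ j * (2 ^ k + 1)) (s := s) (by omega) (not_dvd hn j k) ?_ ?_
      · have := (h2.symm.mul_left (2 ^ k + 1)).trans hs
        rwa [mul_left_comm, ← mul_assoc] at this
      · have := W2 k 0
        rw [W_shift]
        rw [pow_zero] at this
        omega
  rcases h1 with ⟨i, -, -, rfl⟩ | ⟨r, -, rfl⟩ | ⟨k, -, -, rfl⟩ | ⟨k, -, -, rfl⟩ | ⟨k, -, rfl⟩
  · exact small ((W2 i 0).trans (by norm_num))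
  · refine quot (n / 2) 0 (Nat.modEq_zero_iff_dvd.2 ⟨r, ?_⟩) (by simp [W_zero])
    obtain ⟨m, rfl⟩ := he
    rw [show (m + m) / 2 = m by omega]
    zify [Nat.one_le_two_pow]
    ring
  · refine quot k (2 ^ (3 * k) + 2 ^ 0) ?_ (W2 _ _)
    have : (2 ^ k + 1) * (2 ^ (2 * k) - 2 ^ k + 1) = 2 ^ (3 * k) + 2 ^ 0 := by
      zify [Nat.pow_le_pow_right two_pos (show k ≤ 2 * k by omega)]
      ring
    rw [this]
  · refine small ?_
    rw [show (2 ^ k + 1) ^ 2 = 2 ^ (2 * k) + 2 ^ (k + 1) + 2 ^ 0 by ring]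
    exact W3 _ _ _
  · exact small (W3 _ _ 0)

variable {F : Type} [Field F] [Fintype F] [CharP F 2] {n d : ℕ} {a : F}

lemma fam_gq (he : Even n) (hn : 2 ≤ n) (hF : Fintype.card F = 2 ^ n) (hd : 0 < d) (ha : a ≠ 0)
    (hb : Bent n d a) {j k l : ℕ} (H : 2 ^ j * d * (2 ^ k + 1) ≡ 2 ^ l + 1 [MOD 2 ^ n - 1]) :
    Fam n d := by
  obtain ⟨e, h1 | h1, h2⟩ := gq he hn hF hd H ha hb
  · exact ⟨e, .inl ⟨l, h1⟩, h2⟩
  · exact ⟨e, .inr (.inr (.inl ⟨k, h1⟩)), h2⟩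

lemma tiny : ∀ h < 4, 0 < h → ∀ d < 2 ^ (h + h) - 1, (2 ^ (h + h) - 1).gcd d ∣ 2 ^ h + 1 →
    (2 ^ (h + h) - 1).gcd d = 1 ∨ ∃ j < 6, ∃ k < 3, ∃ l < 4,
      2 ^ j * d * (2 ^ k + 1) % (2 ^ (h + h) - 1) = (2 ^ l + 1) % (2 ^ (h + h) - 1) := by
  decide +kernel

lemma fam_zero (he : Even n) (hn : 2 ≤ n) (hF : Fintype.card F = 2 ^ n) (hd : 0 < d)
    (hd' : d < 2 ^ n - 1) (ha : a ≠ 0) (hb : Bent n d a) {r : ℕ} (h0 : 0 < r)
    (h1 : r < 2 ^ n - 1) (H : 2 ^ n - 1 ∣ r * d) (hw : W r ≤ 3) : Fam n d := by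
  have hc := canteaut hF hd hb
  obtain ⟨h, rfl⟩ := id he
  have e2 : (h + h) / 2 = h := by omega
  rw [e2] at hc
  have hq : 2 ^ 1 ≤ 2 ^ h := Nat.pow_le_pow_right (by norm_num) (by omega)
  have hN : 2 ^ (h + h) - 1 = (2 ^ h - 1) * (2 ^ h + 1) := by
    zify [Nat.one_le_two_pow]
    ring
  have hs : 0 < (2 ^ (h + h) - 1).gcd d := Nat.gcd_pos_of_pos_right _ hd
  have hM : (2 ^ (h + h) - 1) / (2 ^ (h + h) - 1).gcd d ∣ r := by
    refine (Nat.coprime_div_gcd_div_gcd hs).dvd_of_dvd_mul_right ?_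
    rw [← Nat.mul_div_assoc _ (Nat.gcd_dvd_right _ _)]
    exact Nat.div_dvd_div (Nat.gcd_dvd_left _ _) H
  have ho : Odd (2 ^ h - 1) :=
    Nat.Even.sub_odd Nat.one_le_two_pow (Nat.even_pow.2 ⟨even_two, by omega⟩) odd_one
  rcases hc with ⟨t, ht⟩ | ⟨t, ht⟩
  · have e : (2 ^ (h + h) - 1) / (2 ^ (h + h) - 1).gcd d = t * (2 ^ h + 1) :=
      Nat.div_eq_of_eq_mul_right hs (by rw [← mul_assoc, ← ht, hN])
    obtain ⟨u, rfl⟩ := e ▸ hM
    have e3 : t * (2 ^ h + 1) * u = t * u + 2 ^ h * (t * u) := by ring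
    have h2 : t * u < 2 ^ h - 1 := by
      rw [hN, mul_right_comm] at h1
      exact lt_of_mul_lt_mul_right h1 (Nat.zero_le _)
    have h3 : t * u ≠ 0 := fun h => by rw [e3, h] at h0; simp at h0
    rw [e3, W_app h _ _ (by omega)] at hw
    have h4 : W (t * u) ≠ 0 := fun h => h3 (digit_zero h)
    obtain ⟨i, hi⟩ := of_W_one (m := t * u) (by omega)
    have h5 : Odd t := (Nat.odd_mul.1 (ht ▸ ho)).2
    obtain rfl : t = 1 := Nat.Coprime.eq_one_of_dvd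
      (Nat.Coprime.pow_right i (Nat.coprime_two_right.2 h5)) ⟨u, hi.symm⟩
    rw [mul_one] at ht
    obtain ⟨ρ, hρ⟩ : 2 ^ h - 1 ∣ d := ht ▸ Nat.gcd_dvd_right _ _
    refine ⟨d, .inr (.inl ⟨ρ, ?_, by rw [e2, hρ, mul_comm]⟩), 0, by rw [pow_zero, one_mul]⟩
    rw [e2]
    have h6 : Nat.gcd ρ (2 ^ h + 1) ∣ 2 ^ h - 1 := by
      rw [ht]
      exact Nat.dvd_gcd (hN ▸ (Nat.gcd_dvd_right _ _).mul_left _)
        (hρ ▸ (Nat.gcd_dvd_left _ _).mul_left _)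
    have hcop : Nat.Coprime (2 ^ h - 1) (2 ^ h + 1) := by
      rw [show 2 ^ h + 1 = 2 + (2 ^ h - 1) by omega, Nat.coprime_add_self_right]
      exact Nat.coprime_two_right.2 ho
    exact Nat.eq_one_of_dvd_coprimes hcop h6 (Nat.gcd_dvd_right _ _)
  · have e : (2 ^ (h + h) - 1) / (2 ^ (h + h) - 1).gcd d = (2 ^ h - 1) * t :=
      Nat.div_eq_of_eq_mul_right hs (by rw [mul_left_comm, ← ht, hN])
    have h2 := W_mult (h := h) r h0 ((Dvd.intro _ e.symm).trans hM)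
    rcases tiny h (by omega) (by omega) d hd' ⟨t, ht⟩ with h3 | ⟨j, -, k, -, l, -, h3⟩
    · exact (crit_coprime hF hn ha hd hb h3).elim
    · exact fam_gq he hn hF hd ha hb h3

theorem Rel.fam (he : Even n) (hn : 2 ≤ n) (hF : Fintype.card F = 2 ^ n) (hd : 0 < d)
    (hd' : d < 2 ^ n - 1) (ha : a ≠ 0) (hb : Bent n d a) (h : Rel n d) : Fam n d := by
  obtain ⟨r, s', h0, h1, H, hw⟩ := h
  have hn0 : 0 < n := by omega
  have hs := W_mod hn0 s'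
  replace H := H.trans (Nat.mod_modEq _ _).symm
  have hlt : s' % (2 ^ n - 1) < 2 ^ n - 1 := Nat.mod_lt _ (by omega)
  generalize s' % (2 ^ n - 1) = s at hs H hlt
  have hr : W r ≠ 0 := fun h => by have := digit_zero h; omega
  rcases Nat.eq_zero_or_pos s with rfl | hs0
  · exact fam_zero he hn hF hd hd' ha hb h0 h1 (Nat.modEq_zero_iff_dvd.1 H) (by omega)
  have hs1 : W s ≠ 0 := fun h => by have := digit_zero h; omega
  by_cases c1 : W s = 1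
  · obtain ⟨i, rfl⟩ := of_W_one c1
    refine (crit_coprime hF hn ha hd hb
      (Nat.coprime_of_mul_modEq_one (2 ^ (i * (n - 1)) * r) ?_).symm).elim
    have := (H.mul_left (2 ^ (i * (n - 1)))).trans (by simpa using cancel_pow hn0 i 1)
    rwa [← mul_assoc, mul_comm] at this
  by_cases c2 : W s = 2
  · obtain ⟨j, k, e1⟩ := of_W_two hn0 h0 (by omega)
    obtain ⟨i, l, e2⟩ := of_W_two hn0 hs0 c2.le
    have h2 := (((e1.symm.mul_right d).trans H).trans e2).mul_left (2 ^ (i * (n - 1)))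
    refine fam_gq he hn hF hd ha hb (j := i * (n - 1) + j) (k := k) (l := l) ?_
    have e3 : 2 ^ (i * (n - 1) + j) * d * (2 ^ k + 1)
        = 2 ^ (i * (n - 1)) * (2 ^ j * (2 ^ k + 1) * d) := by ring
    rw [e3]
    exact h2.trans (cancel_pow hn0 i _)
  obtain ⟨j, rfl⟩ := of_W_one (m := r) (by omega)
  obtain ⟨e, h2, h3⟩ := (resN_cubic he (d := s) (by omega) (show W s = 3 by omega)).equiv hs0 hd
    H.symm F hF a ha hb
  exact ⟨e, .inr (.inr (.inr h2)), h3⟩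

theorem main (he : Even n) (hn : 2 ≤ n) (hF : Fintype.card F = 2 ^ n) (hd : 0 < d)
    (hd' : d ≤ 2 ^ n - 2) (ha : a ≠ 0) (hb : Bent n d a) : Fam n d ↔ Rel n d := by
  have h1 : 2 ^ 2 ≤ 2 ^ n := Nat.pow_le_pow_right (by norm_num) hn
  refine ⟨Fam.rel he ?_, Rel.fam he hn hF hd (by omega) ha hb⟩
  by_contra h
  obtain rfl : n = 2 := by omega
  refine crit_coprime hF hn ha hd hb ?_
  obtain rfl | rfl : d = 1 ∨ d = 2 := by omega
  · simp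
  · decide

end Pool.Agent.Lib.MP_0287c7_lc.U
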