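import Pool.Agent.Lib.MP_0287c7_lc.Niho

/-! Exponents that are a ratio of two Gold exponents: tilings and the criterion. -/

set_option autoImplicit false
open Classical Finset

namespace Pool.Agent.Lib.MP_0287c7_lc

variable {n : ℕ} [NeZero n]

/-- The ring of exponents. -/
abbrev RN (n : ℕ) := ZMod (2 ^ n - 1)

omit [NeZero n] in
lemma two_n : (2 : RN n) ^ n = 1 := by
  have : ((2 ^ n - 1 : ℕ) : RN n) = 0 := ZMod.natCast_self _
  rw [Nat.cast_sub Nat.one_le_two_pow] at this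
  push_cast at this
  linear_combination this

lemma two_cancel {x : RN n} (h : 2 * x = 0) : x = 0 := by
  have e : (2 : RN n) ^ (n - 1) * 2 = 1 := by
    rw [← pow_succ, Nat.sub_add_cancel NeZero.one_le, two_n]
  linear_combination 2 ^ (n - 1) * h - x * e

omit [NeZero n] in
lemma cast_zero_iff (z : ℤ) : (z : RN n) = 0 ↔ (2 ^ n - 1 : ℤ) ∣ z := by
  rw [ZMod.intCast_zmod_eq_zero_iff_dvd, Nat.cast_sub Nat.one_le_two_pow]
  simp

lemma ev_zeroQ {R : Type} [CommRing R] (β : R) : ev β (0 : ZMod n → ℤ) = 0 := by simp [ev]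

/-- Tilings by edges of length `l` starting in `J` and edges of length `k` starting in `I`. -/
def Til (k l : ZMod n) (J I : ZMod n → ℤ) : Prop := ∀ x, J x + J (x - l) + I x + I (x - k) = 1

lemma Til.sum {k l : ZMod n} {J I : ZMod n → ℤ} (h : Til k l J I) :
    2 * (∑ x, J x + ∑ x, I x) = n := by
  have h1 : ∑ x, (J x + J (x - l) + I x + I (x - k)) = ∑ _x : ZMod n, (1 : ℤ) :=
    sum_congr rfl fun x _ => h x
  simp only [sum_add_distrib, sum_shift, sum_const, card_univ, ZMod.card, nsmul_eq_mul,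
    mul_one] at h1
  omega

lemma til_of {D : RN n} {k l : ZMod n} (H : D * (1 + 2 ^ k.val) = 1 + 2 ^ l.val)
    {J I : ZMod n → ℤ} (hJ : IsBit J) (hI : IsBit I) (h : D * ev 2 J + ev 2 I = 0)
    (h0 : ∃ x, J x = 1 ∨ I x = 1) :
    (n : ℤ) ≤ 2 * (∑ x, J x + ∑ x, I x) ∧ (2 * (∑ x, J x + ∑ x, I x) ≤ n → Til k l J I) := by
  obtain ⟨γ, g0, g1⟩ := carry (fun x => J x + J (x - l) + I x + I (x - k) - 1) (by
    rw [ev_sub, ev_one]
    refine dvd_sub ?_ dvd_rfl
    rw [← cast_zero_iff, ev_cast, ev_add, ev_add, ev_add, ev_shift two_n, ev_shift two_n]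
    linear_combination (1 + 2 ^ k.val) * h - ev 2 J * H)
    (fun x => by
      have := hJ x; have := hJ (x - l); have := hI x; have := hI (x - k); omega)
    (by
      obtain ⟨x, hx⟩ := h0
      exact ⟨x, by have := hJ x; have := hJ (x - l); have := hI x; have := hI (x - k); omega⟩)
  have h1 : ∑ x, (J x + J (x - l) + I x + I (x - k) - 1 + γ (x - 1)) = ∑ x, 2 * γ x :=
    sum_congr rfl fun x _ => g1 x
  simp only [sum_add_distrib, sum_sub_distrib, sum_shift, ← mul_sum, sum_const, card_univ,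
    ZMod.card, nsmul_eq_mul, mul_one] at h1
  have h2 : 0 ≤ ∑ x, γ x := sum_nonneg fun x _ => g0 x
  refine ⟨by omega, fun h3 x => ?_⟩
  have h4 : ∀ x, γ x = 0 := fun x =>
    (sum_eq_zero_iff_of_nonneg fun x _ => g0 x).1 (by omega) x (mem_univ _)
  have := g1 x
  rw [h4, h4] at this
  omega

/-- The tilings of class zero with given `I`. -/
noncomputable def TS (D : RN n) (k l : ZMod n) (I : ZMod n → ℤ) : Finset (ZMod n → ℤ) :=
  ((range (2 ^ n)).image (bits n)).filter fun J => Til k l J I ∧ D * ev 2 J + ev 2 I = 0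

lemma mem_TS {D : RN n} {k l : ZMod n} {J I : ZMod n → ℤ} :
    J ∈ TS D k l I ↔ IsBit J ∧ Til k l J I ∧ D * ev 2 J + ev 2 I = 0 := by
  rw [TS, mem_filter, mem_image]
  refine and_congr_left fun _ => ⟨?_, fun h => ?_⟩
  · rintro ⟨j, -, rfl⟩
    exact isBit_bits j
  · obtain ⟨j, h1, h2⟩ := exists_bits h
    exact ⟨j, mem_range.2 h1, h2.symm⟩

variable {F : Type} [Field F]

/-- The criterion in terms of tilings. -/
structure Cr (D : RN n) (k l : ZMod n) (χ : AddChar (RN n) F) : Prop where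
  H : D * (1 + 2 ^ k.val) = 1 + 2 ^ l.val
  s0 : ∑ J ∈ TS D k l 0, χ (ev 2 J) = 1
  s1 : ∀ I, IsBit I → (∃ x, I x = 1) → ∑ J ∈ TS D k l I, χ (ev 2 J) = 0

lemma pos_iff_bits {j : ℕ} (hj : j < 2 ^ n) : 0 < j ↔ ∃ x, bits n j x = 1 := by
  refine ⟨fun h => by_contra fun k => ?_, fun ⟨x, hx⟩ => Nat.pos_of_ne_zero fun k => ?_⟩
  · have e : bits n j = 0 := funext fun x => (isBit_bits j x).resolve_right fun e => k ⟨x, e⟩
    have := ev_bits hj
    rw [e, ev_zeroQ] at this
    omega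
  · simp [bits, k] at hx

theorem cr_of_bent [CharP F 2] [Fintype F] (hF : Fintype.card F = 2 ^ n) (he : Even n) {a : F}
    (ha : a ≠ 0) {d : ℕ} (hd : 0 < d) (hb : Bent n d a) {k l : ZMod n}
    (H : (d : RN n) * (1 + 2 ^ k.val) = 1 + 2 ^ l.val) : ∃ χ : AddChar (RN n) F, Cr d k l χ := by
  obtain ⟨m, hm⟩ := he
  have hn0 := NeZero.ne n
  have hn : 2 ≤ n := by omega
  have hN : 2 ^ 2 ≤ 2 ^ n := Nat.pow_le_pow_right two_pos hn
  have : NeZero (2 ^ n - 1) := ⟨by omega⟩
  have h1 : a ^ (2 ^ n - 1) = 1 := hF ▸ FiniteField.pow_card_sub_one_eq_one a ha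
  have hlt : ∀ j < 2 ^ n, wt n j ≤ m → j < 2 ^ n - 1 := fun j hj hw => by
    by_contra h3
    rw [show j = 2 ^ n - 1 by omega, wt_top] at hw
    omega
  have hdv : ∀ j < 2 ^ n, ∀ s < 2 ^ n, (2 ^ n - 1 ∣ j * d + s ↔
      (d : RN n) * ev 2 (bits n j) + ev 2 (bits n s) = 0) := fun j hj s hs => by
    rw [ev_bits' _ hj, ev_bits' _ hs, ← ZMod.natCast_eq_zero_iff, mul_comm]
    push_cast
    rfl
  have key : ∀ s < 2 ^ n, ∑ J ∈ TS d k l (bits n s), AddChar.zmodChar _ h1 (ev 2 J) =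
      ∑ j ∈ (range (2 ^ n - 1)).filter (fun j => 2 ^ n - 1 ∣ j * d + s ∧ wt n j + wt n s = m),
        a ^ j := fun s hs => by
    refine (sum_bij (fun j _ => bits n j) (fun j hj => ?_) (fun i hi j hj e => ?_)
      (fun J hJ => ?_) fun j hj => ?_).symm
    · obtain ⟨h2, h3, h4⟩ := mem_filter.1 hj
      have h5 : j < 2 ^ n := by have := mem_range.1 h2; omega
      have h6 := (hdv j h5 s hs).1 h3
      refine mem_TS.2 ⟨isBit_bits j, (til_of H (isBit_bits j) (isBit_bits s) h6 ?_).2 ?_, h6⟩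
      · rw [exists_or, ← pos_iff_bits h5, ← pos_iff_bits hs]
        by_contra h7
        rw [show j = 0 by omega, show s = 0 by omega, wt_zero] at h4
        omega
      · rw [sum_bits, sum_bits]
        omega
    · have h2 := mem_range.1 (mem_filter.1 hi).1
      have h3 := mem_range.1 (mem_filter.1 hj).1
      have := congrArg (ev (2 : ℤ)) e
      rw [ev_bits (by omega), ev_bits (by omega)] at this
      exact_mod_cast this
    · obtain ⟨h2, h3, h4⟩ := mem_TS.1 hJ
      obtain ⟨j, hj, rfl⟩ := exists_bits h2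
      have h5 := h3.sum
      rw [sum_bits, sum_bits] at h5
      exact ⟨j, mem_filter.2 ⟨mem_range.2 (hlt j hj (by omega)), (hdv j hj s hs).2 h4, by omega⟩,
        rfl⟩
    · have := mem_range.1 (mem_filter.1 hj).1
      rw [ev_bits' _ (by omega), AddChar.zmodChar_apply']
  have low : ∀ j < 2 ^ n - 1, ∀ s < 2 ^ n, 0 < j ∨ 0 < s → 2 ^ n - 1 ∣ j * d + s →
      m ≤ wt n j + wt n s := fun j hj s hs h0 h => by
    have h5 : j < 2 ^ n := by omega
    have := (til_of H (isBit_bits j) (isBit_bits s) ((hdv j h5 s hs).1 h)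
      (by rwa [exists_or, ← pos_iff_bits h5, ← pos_iff_bits hs])).1
    rw [sum_bits, sum_bits] at this
    omega
  refine ⟨AddChar.zmodChar _ h1, H, ?_, fun I hI h0 => ?_⟩
  · have e : bits n 0 = 0 := funext fun x => by simp [bits]
    rw [← e, key 0 (by omega), ← crit0 hF hn ha hd hb fun j hj h0 h => by
      have := low j hj 0 (by omega) (.inl h0) h
      rw [wt_zero] at this
      omega]
    refine sum_congr (filter_congr fun j _ => ?_) fun _ _ => rfl
    rw [wt_zero, add_zero, add_zero, show n / 2 = m by omega]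
    refine ⟨fun h => ⟨⟨Nat.pos_of_ne_zero fun k => ?_, h.1⟩, h.2⟩, fun h => ⟨h.1.2, h.2⟩⟩
    rw [k, wt_zero] at h
    omega
  · obtain ⟨s, hs, rfl⟩ := exists_bits hI
    have hs0 := (pos_iff_bits hs).2 h0
    rw [key s hs]
    by_cases hw : wt n s ≤ m
    · rw [← crit hF hn ha hb hs0 (hlt s hs hw) (w0 := m - wt n s)
        (fun j hj h => by have := low j hj s hs (.inr hs0) h; omega) (by omega)]
      exact sum_congr (filter_congr fun j _ => and_congr_right fun _ => by omega) fun _ _ => rfl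
    · exact sum_eq_zero fun j hj => by have := (mem_filter.1 hj).2.2; omega

namespace Cr

variable {D : RN n} {k l : ZMod n} {χ : AddChar (RN n) F} {I J J' : ZMod n → ℤ}

omit [NeZero n] in
lemma chi_ne (χ : AddChar (RN n) F) (x : RN n) : χ x ≠ 0 := (χ.val_isUnit x).ne_zero

lemma pair [CharP F 2] (c : Cr D k l χ) (hI : IsBit I) (h0 : ∃ x, I x = 1) (hJ : J ∈ TS D k l I)
    (h : ∀ K ∈ TS D k l I, K = J ∨ K = J') : J' ≠ J ∧ J' ∈ TS D k l I ∧
      χ (ev 2 J) = χ (ev 2 J') := by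
  have s := c.s1 I hI h0
  by_cases h1 : J' ≠ J ∧ J' ∈ TS D k l I
  · refine ⟨h1.1, h1.2, CharTwo.add_eq_zero.1 ?_⟩
    rwa [show TS D k l I = {J, J'} from Finset.ext fun K => by
      rw [mem_insert, mem_singleton]
      exact ⟨h K, fun e => e.elim (· ▸ hJ) (· ▸ h1.2)⟩, sum_pair h1.1.symm] at s
  · rw [sum_eq_single_of_mem J hJ fun K hK e => absurd ⟨(h K hK).resolve_left e ▸ e,
      (h K hK).resolve_left e ▸ hK⟩ h1] at s
    exact absurd s (chi_ne χ _)

lemma uniq [CharP F 2] (c : Cr D k l χ) (hI : IsBit I) (h0 : ∃ x, I x = 1) (hJ : J ∈ TS D k l I)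
    (h : ∀ K ∈ TS D k l I, K = J) : False :=
  (c.pair hI h0 hJ fun K hK => .inl (h K hK)).1 rfl

lemma ex0 (c : Cr D k l χ) : ∃ J, J ∈ TS D k l 0 := by
  by_contra h
  have := c.s0
  rw [sum_eq_zero fun J hJ => absurd ⟨J, hJ⟩ h] at this
  exact zero_ne_one this

omit [NeZero n] in
lemma alt0 (hJ : Til k l J 0) (x : ZMod n) (i : ℕ) :
    J (x - (2 * i : ℕ) * l) = J x ∧ J (x - (2 * i + 1 : ℕ) * l) = 1 - J x := by
  have h : ∀ y, J (y - l) = 1 - J y := fun y => by have := hJ y; simp at this; omega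
  induction i with
  | zero => simpa using h x
  | succ i ih =>
    have e : J (x - (2 * (i + 1) : ℕ) * l) = J x := by
      rw [show x - (2 * (i + 1) : ℕ) * l = x - (2 * i + 1 : ℕ) * l - l by push_cast; ring, h, ih.2]
      ring
    exact ⟨e, by rw [← e, ← h]; congr 1; push_cast; ring⟩

/-- Odd multiples of `l` do not vanish. -/
lemma odd_ne (c : Cr D k l χ) {i : ℕ} (hi : Odd i) : (i : ZMod n) * l ≠ 0 := fun h => by
  obtain ⟨J, hJ⟩ := c.ex0
  obtain ⟨i, rfl⟩ := hi
  have := (alt0 (mem_TS.1 hJ).2.1 0 i).2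
  rw [h, sub_zero] at this
  omega

/-- The indicator of the even multiples of `l`. -/
noncomputable def hf (l x : ZMod n) : ℤ := if ∃ i : ℕ, x = (2 * i : ℕ) * l then 1 else 0

lemma hf_sub (l x : ZMod n) : hf l (x - l - l) = hf l x := by
  refine if_congr ⟨fun ⟨i, h⟩ => ⟨i + 1, ?_⟩, fun ⟨i, h⟩ => ⟨i + (n - 1), ?_⟩⟩ rfl rfl
  · push_cast at h ⊢
    linear_combination h
  · push_cast [Nat.cast_sub (NeZero.one_le (n := n)), ZMod.natCast_self] at h ⊢
    linear_combination h

/-- Exchange of the two halves of the cycle of `y`. -/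
noncomputable def tg (l y x : ZMod n) : ℤ := hf l (y - x) - hf l (y - x - l)

lemma tg_anti (l y x : ZMod n) : tg l y x + tg l y (x - l) = 0 := by
  rw [tg, tg, ← hf_sub l (y - (x - l)), show y - (x - l) - l = y - x by ring]
  ring

omit [NeZero n] in
lemma tg_cases (hJ : Til k l J 0) (y x : ZMod n) :
    tg l y x = 0 ∨ tg l y x = 1 ∧ J x = J y ∨ tg l y x = -1 ∧ J x = 1 - J y := by
  unfold tg hf
  split_ifs with h1 h2 h2
  · exact .inl rfl
  · obtain ⟨i, h⟩ := h1
    exact .inr (.inl ⟨rfl, by rw [← (alt0 hJ y i).1, ← h, sub_sub_cancel]⟩)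
  · obtain ⟨i, h⟩ := h2
    refine .inr (.inr ⟨rfl, ?_⟩)
    rw [← (alt0 hJ y i).2]
    congr 1
    push_cast at h ⊢
    linear_combination -h
  · exact .inl rfl

lemma tg_self (c : Cr D k l χ) (y : ZMod n) : tg l y y = 1 := by
  rw [tg, hf, hf, if_pos ⟨0, by simp⟩, if_neg, sub_zero]
  rintro ⟨i, h⟩
  refine c.odd_ne (i := 2 * i + 1) ⟨i, rfl⟩ ?_
  push_cast at h ⊢
  linear_combination -h

lemma tog (c : Cr D k l χ) (hA : ∀ Δ : ZMod n → ℤ, (∀ x, Δ x + Δ (x - l) = 0) → D * ev 2 Δ = 0)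
    (y : ZMod n) (C : (ZMod n → ℤ) → Prop) [DecidablePred C]
    (hC : ∀ J, C (fun x => J x - tg l y x) ↔ C J)
    (h : ∑ J ∈ TS D k l 0 with C J ∧ J y = 1, χ (ev 2 J) = 0) :
    ∑ J ∈ TS D k l 0 with C J, χ (ev 2 J) = 0 := by
  have hm : ∀ (J : ZMod n → ℤ) (s : ℤ), J ∈ TS D k l 0 → s = 2 * J y - 1 →
      (fun x => J x - s * tg l y x) ∈ TS D k l 0 := fun J s hJ hs => by
    obtain ⟨h1, h2, h3⟩ := mem_TS.1 hJ
    refine mem_TS.2 ⟨fun x => ?_, fun x => ?_, ?_⟩
    · have := h1 x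
      beta_reduce
      rcases h1 y with e | e <;> rcases tg_cases h2 y x with e' | ⟨e', _⟩ | ⟨e', _⟩ <;>
        rw [hs, e'] <;> omega
    · linear_combination h2 x - s * tg_anti l y x
    · rw [ev_sub, ev_mul]
      linear_combination h3 - s * hA _ (tg_anti l y)
  rw [← sum_filter_add_sum_filter_not _ fun J => J y = 1, filter_filter, filter_filter, h,
    zero_add, ← mul_zero (χ (-ev 2 (tg l y))), ← h, mul_sum]
  refine (sum_nbij' (fun J x => J x - tg l y x) (fun J x => J x + tg l y x) (fun J hJ => ?_)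
    (fun J hJ => ?_) (fun J _ => by simp) (fun J _ => by simp) fun J _ => ?_).symm
  · obtain ⟨h1, h2, h3⟩ := mem_filter.1 hJ
    refine mem_filter.2 ⟨by simpa using hm J 1 h1 (by omega), (hC J).2 h2, ?_⟩
    simp [h3, c.tg_self]
  · obtain ⟨h1, h2, h3⟩ := mem_filter.1 hJ
    have h4 := ((mem_TS.1 h1).1 y).resolve_right h3
    refine mem_filter.2 ⟨by simpa using hm J (-1) h1 (by omega), (hC _).1 (by simpa using h2), ?_⟩
    simp [h4, c.tg_self]
  · rw [ev_sub, ← AddChar.map_add_eq_mul, neg_add_eq_sub]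

/-- The case in which all tilings with the same `I` have the same class. -/
theorem caseA (c : Cr D k l χ)
    (hA : ∀ Δ : ZMod n → ℤ, (∀ x, Δ x + Δ (x - l) = 0) → D * ev 2 Δ = 0) (hk : k ≠ 0)
    (hkl : ∀ i : ℕ, Odd i → k ≠ i * l) : False := by
  have hl : l ≠ 0 := by simpa using c.odd_ne odd_one
  let δ : ZMod n → ZMod n → ℤ := fun z x => if x = z then 1 else 0
  have hδ : ∀ z x y, δ z (x - y) = δ (z + y) x := fun z x y => if_congr sub_eq_iff_eq_add rfl rfl
  have e0 : ∀ z, ev (2 : RN n) (δ z) = 2 ^ z.val := ev_single 2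
  have s := c.s1 (fun x => δ 0 x + δ l x) (fun x => by
    simp only [δ]
    split_ifs with h1 h2
    exacts [absurd (h2.symm.trans h1) hl, .inr rfl, .inr rfl, .inl rfl]) ⟨0, by simp [δ, hl.symm]⟩
  have s2 : ∑ J ∈ TS D k l 0 with J 0 = 1 ∧ J k = 1, χ (ev 2 J) = 0 := by
    rw [← mul_zero (χ (1 + 2 ^ k.val)), ← s, mul_sum]
    refine sum_nbij' (fun J x => J x - (δ 0 x + δ k x)) (fun J x => J x + (δ 0 x + δ k x))
      (fun J hJ => ?_) (fun J hJ => ?_) (fun J _ => by simp) (fun J _ => by simp) fun J _ => ?_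
    · obtain ⟨h1, h2, h3⟩ := mem_filter.1 hJ
      obtain ⟨h4, h5, h6⟩ := mem_TS.1 h1
      refine mem_TS.2 ⟨fun x => ?_, fun x => ?_, ?_⟩
      · have := h4 x
        simp only [δ]
        split_ifs with a b b
        · exact absurd (b.symm.trans a) hk
        all_goals simp_all
      · have := h5 x
        simp only [hδ, zero_add, add_comm l k, Pi.zero_apply] at this ⊢
        omega
      · rw [ev_zeroQ] at h6
        simp only [ev_sub, ev_add, e0, ZMod.val_zero]
        linear_combination h6 - c.H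
    · obtain ⟨h4, h5, h6⟩ := mem_TS.1 hJ
      have d0 : ∀ z x, 0 ≤ δ z x := fun z x => by simp only [δ]; split_ifs <;> omega
      have d1 : ∀ z, δ z z = 1 := fun z => if_pos rfl
      have j0 : J 0 = 0 := by
        have := h5 0
        have := h4 0; have := h4 (0 - l); have := d1 0; have := d0 l 0; have := d0 0 (0 - k)
        have := d0 l (0 - k)
        simp only at *
        omega
      have jk : J k = 0 := by
        have h7 := h5 k
        have := h4 k; have := h4 (k - l); have := d1 0; have := d0 l 0; have := d0 0 k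
        have := d0 l k
        simp only [sub_self] at h7
        omega
      refine mem_filter.2 ⟨mem_TS.2 ⟨fun x => ?_, fun x => ?_, ?_⟩, by simp [δ, j0, hk.symm],
        by simp [δ, jk, hk]⟩
      · have := h4 x
        simp only [δ]
        split_ifs with a b b
        · exact absurd (b.symm.trans a) hk
        all_goals simp_all
      · have := h5 x
        simp only [hδ, zero_add, add_comm l k, Pi.zero_apply] at this ⊢
        omega
      · simp only [ev_add, e0, ZMod.val_zero, ev_zeroQ] at h6 ⊢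
        linear_combination h6 + c.H
    · rw [← AddChar.map_add_eq_mul, ev_sub, ev_add, e0, e0, ZMod.val_zero]
      congr 1
      ring
  have s3 : ∑ J ∈ TS D k l 0 with J 0 = 1, χ (ev 2 J) = 0 := by
    by_cases h : ∃ i : ℕ, k = (2 * i : ℕ) * l
    · obtain ⟨i, h⟩ := h
      rw [← s2]
      refine sum_congr (filter_congr fun J hJ => ?_) fun _ _ => rfl
      rw [← (alt0 (mem_TS.1 hJ).2.1 k i).1, ← h, sub_self, and_self]
    · refine c.tog hA k (fun J => J 0 = 1) (fun J => ?_) s2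
      beta_reduce
      rw [tg, hf, hf, sub_zero, if_neg h, if_neg, sub_self, sub_zero]
      rintro ⟨i, e⟩
      refine hkl (2 * i + 1) ⟨i, rfl⟩ ?_
      push_cast at e ⊢
      linear_combination e
  have s4 := c.tog hA 0 (fun _ => True) (fun _ => Iff.rfl) (by simpa using s3)
  rw [filter_true, c.s0] at s4
  exact one_ne_zero s4

end Cr

end Pool.Agent.Lib.MP_0287c7_lc
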