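import Pool.Agent.Lib.MP_0287c7_lc.U.R2

/-! Coordinates along the cosets of the subgroup generated by `k`. -/

set_option autoImplicit false
open Classical Finset

namespace Pool.Agent.Lib.MP_0287c7_lc

variable {n e ν lam : ℕ} [NeZero n] [NeZero ν] {k : ZMod n}

lemma pow_mul_val (m : ℕ) (k : ZMod n) : (2 : RN n) ^ ((m : ZMod n) * k).val = (2 ^ k.val) ^ m := by
  rw [← pow_mul, mul_comm k.val, ← pow_val_cast two_n (m * k.val), Nat.cast_mul,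
    ZMod.natCast_zmod_val]

lemma odd_of_dvd {L : ℕ} (he : 0 < e) (h : (2 ^ e + 1 : ℤ) ∣ 1 + 2 ^ L) : ∃ u, Odd u ∧ L = e * u := by
  have h1 := sub_dvd_pow_sub_pow (2 ^ e : ℤ) (-1) (L / e)
  have h2 := dvd_sub h ((sub_neg_eq_add (2 ^ e : ℤ) 1 ▸ h1).mul_left (2 ^ (L % e)))
  have h3 : (2 : ℤ) ^ (L % e) < 2 ^ e := pow_lt_pow_right₀ one_lt_two (Nat.mod_lt _ he)
  have h4 : (1 : ℤ) ≤ 2 ^ (L % e) := one_le_pow₀ one_le_two
  rw [mul_sub, ← pow_mul, ← pow_add, Nat.mod_add_div] at h2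
  have h5 := Int.eq_zero_of_abs_lt_dvd h2
  rcases Nat.even_or_odd (L / e) with h6 | h6 <;> rw [h6.neg_one_pow, abs_lt] at h5
  · omega
  · have : 2 ^ (L % e) = 2 ^ 0 := by exact_mod_cast (by omega : (2 : ℤ) ^ (L % e) = 1)
    have := Nat.pow_right_injective le_rfl this
    exact ⟨_, h6, by have := Nat.mod_add_div L e; omega⟩

/-- The point `i` of the coset `ρ`. -/
def pt (k : ZMod n) (ρ : Fin e) (i : ZMod ν) : ZMod n := (ρ.val : ZMod n) + (i.val : ZMod n) * k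

/-- Restriction to the cosets. -/
def cl (e ν : ℕ) (k : ZMod n) (J : ZMod n → ℤ) (ρ : Fin e) (i : ZMod ν) : ℤ := J (pt k ρ i)

/-- The value of a family of vectors. -/
def evF (σ : RN n) (J : Fin e → ZMod ν → ℤ) : RN n := ∑ ρ, 2 ^ ρ.val * ev σ (J ρ)

/-- Families of tilings of class zero. -/
def Fam (σ D : RN n) (lam : ℕ) (J I : Fin e → ZMod ν → ℤ) : Prop :=
  (∀ ρ, IsBit (J ρ) ∧ Til 1 (lam : ZMod ν) (J ρ) (I ρ)) ∧
    ∑ ρ, 2 ^ ρ.val * (D * ev σ (J ρ) + ev σ (I ρ)) = 0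

/-- The subgroup generated by `k` has index `e` and even order `ν`. -/
structure Co (e ν : ℕ) (k : ZMod n) : Prop where
  hn : n = e * ν
  hν : Even ν
  hκ : ∃ κ, k.val = e * κ ∧ κ.Coprime ν

namespace Co

variable (h : Co e ν k)
include h

omit [NeZero ν] in
lemma e_pos : 0 < e := Nat.pos_of_ne_zero fun e0 => NeZero.ne n (by rw [h.hn, e0, zero_mul])

omit [NeZero ν] in
lemma nu_k : (ν : ZMod n) * k = 0 := by
  obtain ⟨κ, h1, -⟩ := h.hκ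
  rw [← ZMod.natCast_zmod_val k, h1, ← Nat.cast_mul, ZMod.natCast_eq_zero_iff]
  exact ⟨κ, by rw [← mul_assoc, mul_comm ν, ← h.hn]⟩

omit [NeZero n] in
lemma two_le : 2 ≤ ν := by
  have := NeZero.ne ν
  have := Nat.even_iff.1 h.hν
  omega

lemma inv : ∃ m : ℕ, Odd m ∧ (m : ZMod n) * k = e := by
  obtain ⟨κ, h1, h2⟩ := h.hκ
  obtain ⟨m, -, hm⟩ := Nat.exists_mul_mod_eq_one_of_coprime h2 h.two_le
  have h3 := Nat.mod_add_div (κ * m) ν
  rw [hm] at h3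
  refine ⟨m, (Nat.odd_mul.1 (h3 ▸ odd_one.add_even (h.hν.mul_right _))).2, ?_⟩
  rw [← ZMod.natCast_zmod_val k, h1, ← Nat.cast_mul, mul_left_comm, mul_comm m, ← h3, mul_add,
    ← mul_assoc, ← h.hn]
  simp

omit [NeZero ν] in
lemma pow_nu : ((2 : RN n) ^ k.val) ^ ν = 1 := by
  rw [← pow_mul_val, h.nu_k, ZMod.val_zero, pow_zero]

lemma pow_e : ∃ m : ℕ, Odd m ∧ (2 : RN n) ^ e = (2 ^ k.val) ^ m := by
  obtain ⟨m, h1, h2⟩ := h.inv
  exact ⟨m, h1, by rw [← pow_mul_val, h2, pow_val_cast two_n]⟩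

omit [NeZero ν] in
lemma val_mul (m : ℕ) : ((m : ZMod ν).val : ZMod n) * k = m * k := by
  rw [ZMod.val_natCast]
  conv_rhs => rw [← Nat.mod_add_div m ν]
  push_cast
  linear_combination -((m / ν : ℕ) : ZMod n) * h.nu_k

lemma pt_sub (ρ : Fin e) (i : ZMod ν) (m : ℕ) : pt k ρ (i - (m : ZMod ν)) = pt k ρ i - m * k := by
  have := h.val_mul ((i - (m : ZMod ν)).val + m)
  simp only [Nat.cast_add, ZMod.natCast_zmod_val, sub_add_cancel] at this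
  simp only [pt]
  linear_combination -this

lemma pt_surj (x : ZMod n) : ∃ (ρ : Fin e) (i : ZMod ν), x = pt k ρ i := by
  obtain ⟨m, -, hm⟩ := h.inv
  refine ⟨⟨x.val % e, Nat.mod_lt _ h.e_pos⟩, (x.val / e * m : ℕ), ?_⟩
  rw [pt, h.val_mul, Nat.cast_mul, mul_assoc, hm, ← Nat.cast_mul, ← Nat.cast_add,
    Nat.mod_add_div', ZMod.natCast_zmod_val]

lemma pt_bij : Function.Bijective fun p : Fin e × ZMod ν => pt k p.1 p.2 :=
  (Fintype.bijective_iff_surjective_and_card _).2 ⟨fun x => by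
    obtain ⟨ρ, i, e⟩ := h.pt_surj x
    exact ⟨(ρ, i), e.symm⟩, by simp [← h.hn]⟩

lemma glue (f : Fin e → ZMod ν → ℤ) : ∃ J : ZMod n → ℤ, cl e ν k J = f :=
  ⟨Function.extend (fun p : Fin e × ZMod ν => pt k p.1 p.2) (fun p => f p.1 p.2) 0,
    funext fun ρ => funext fun i => h.pt_bij.1.extend_apply _ _ (ρ, i)⟩

lemma ev_cl (J : ZMod n → ℤ) : ev (2 : RN n) J = evF (2 ^ k.val) (cl e ν k J) := by
  rw [ev, ← h.pt_bij.sum_comp, Fintype.sum_prod_type]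
  refine sum_congr rfl fun ρ _ => ?_
  rw [ev, mul_sum]
  refine sum_congr rfl fun i _ => ?_
  rw [pt, pow_val_add two_n, pow_val_cast two_n, pow_mul_val, mul_left_comm]
  rfl

lemma isBit_cl {J : ZMod n → ℤ} : IsBit J ↔ ∀ ρ, IsBit (cl e ν k J ρ) :=
  ⟨fun b _ _ => b _, fun b x => by
    obtain ⟨ρ, i, rfl⟩ := h.pt_surj x
    exact b ρ i⟩

lemma mem_TS_iff {D : RN n} {J I : ZMod n → ℤ} :
    J ∈ TS D k (lam * k) I ↔ Fam (2 ^ k.val) D lam (cl e ν k J) (cl e ν k I) := by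
  have e1 : ∀ (ρ : Fin e) (i : ZMod ν), pt k ρ (i - 1) = pt k ρ i - k := fun ρ i => by
    simpa using h.pt_sub ρ i 1
  rw [mem_TS, h.isBit_cl, Fam, forall_and, and_assoc, h.ev_cl, h.ev_cl, evF, evF, mul_sum,
    ← sum_add_distrib]
  refine and_congr_right fun _ => and_congr ⟨fun t ρ i => ?_, fun t x => ?_⟩ ?_
  · simpa only [cl, h.pt_sub, e1] using t (pt k ρ i)
  · obtain ⟨ρ, i, rfl⟩ := h.pt_surj x
    simpa only [cl, h.pt_sub, e1] using t ρ i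
  · simp only [mul_add, mul_left_comm D]

lemma pair {F : Type} [Field F] [CharP F 2] {D : RN n} {χ : AddChar (RN n) F}
    (c : Cr D k (lam * k) χ) {J J' I : Fin e → ZMod ν → ℤ} (hI : ∀ ρ, IsBit (I ρ))
    (h0 : ∃ ρ i, I ρ i = 1) (hJ : Fam (2 ^ k.val) D lam J I)
    (hu : ∀ K, Fam (2 ^ k.val) D lam K I → K = J ∨ K = J') :
    J' ≠ J ∧ χ (evF (2 ^ k.val) J) = χ (evF (2 ^ k.val) J') := by
  obtain ⟨J, rfl⟩ := h.glue J
  obtain ⟨J', rfl⟩ := h.glue J'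
  obtain ⟨I, rfl⟩ := h.glue I
  have inj : ∀ {K L : ZMod n → ℤ}, cl e ν k K = cl e ν k L → K = L := fun e => funext fun x => by
    obtain ⟨ρ, i, rfl⟩ := h.pt_surj x
    exact congrFun (congrFun e ρ) i
  obtain ⟨ρ, i, h0⟩ := h0
  have := c.pair (J' := J') (h.isBit_cl.2 hI) ⟨_, h0⟩ (h.mem_TS_iff.2 hJ) fun K hK =>
    (hu _ (h.mem_TS_iff.1 hK)).imp inj inj
  exact ⟨fun e => this.1 (inj e), by rw [← h.ev_cl, ← h.ev_cl, this.2.2]⟩

omit [NeZero n] in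
lemma eta_cast : ∃ H : ℤ, (2 ^ e + 1) * H = 2 ^ n - 1 ∧ eta ν ((2 : RN n) ^ k.val) = H := by
  obtain ⟨κ, h1, h2⟩ := h.hκ
  have h3 : Odd κ := Nat.coprime_two_right.1 (h2.coprime_dvd_right h.hν.two_dvd)
  have h4 : (-(2 : RN n) ^ e) ^ ν = 1 := by rw [h.hν.neg_pow, ← pow_mul, ← h.hn, two_n]
  refine ⟨-D0 (2 ^ e) ν, ?_, ?_⟩
  · have := mul_neg_geom_sum (-(2 : ℤ) ^ e) ν
    rw [h.hν.neg_pow, ← pow_mul, ← h.hn] at this
    rw [D0]
    linear_combination -this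
  · rw [eta_eq, D0, D0, h1, pow_mul, ← h3.neg_pow]
    push_cast
    rw [← sum_zmod (n := ν) fun i => (-(2 : RN n) ^ e) ^ i,
      ← sum_zmod (n := ν) fun i => ((-(2 : RN n) ^ e) ^ κ) ^ i,
      ← Equiv.sum_comp (ZMod.unitOfCoprime κ h2).mulLeft
        fun i : ZMod ν => (-(2 : RN n) ^ e) ^ i.val]
    refine congrArg _ (sum_congr rfl fun i _ => ?_)
    rw [← pow_mul, ← pow_val_cast h4]
    simp

lemma eta_dvd (c : ℤ) : c * eta ν ((2 : RN n) ^ k.val) = 0 ↔ (2 ^ e + 1 : ℤ) ∣ c := by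
  obtain ⟨H, h1, h2⟩ := h.eta_cast
  have : (1 : ℤ) < 2 ^ n := one_lt_pow₀ one_lt_two (NeZero.ne n)
  rw [h2, ← Int.cast_mul, cast_zero_iff, ← h1, mul_dvd_mul_iff_right]
  rintro rfl
  omega

lemma ann_r {x : RN n} (hx : 2 ^ k.val * x = -x) : 2 ^ e * x = -x := by
  obtain ⟨m, h1, h2⟩ := h.pow_e
  rw [h2, ann_pow hx, h1.neg_one_pow, neg_one_mul]

lemma ann {x : RN n} (hx : 2 ^ k.val * x = -x) : ∃ c : ℤ, x = c * eta ν ((2 : RN n) ^ k.val) := by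
  obtain ⟨H, h1, h2⟩ := h.eta_cast
  obtain ⟨z, rfl⟩ := ZMod.intCast_surjective x
  have : (2 ^ n - 1 : ℤ) ∣ (2 ^ e + 1) * z := (cast_zero_iff _).1 (by
    push_cast
    linear_combination h.ann_r hx)
  rw [← h1, mul_dvd_mul_iff_left (by positivity)] at this
  obtain ⟨c, rfl⟩ := this
  exact ⟨c, by rw [h2, Int.cast_mul, mul_comm]⟩

lemma sum_Ev : ∑ ρ : Fin e, 2 ^ ρ.val * ev ((2 : RN n) ^ k.val) (Ev (ν := ν)) =
    eta ν (2 ^ k.val) := by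
  obtain ⟨m, ⟨m, rfl⟩, h2⟩ := h.pow_e
  have e1 := mul_Ev h.hν h.pow_nu
  have e2 := mul_eta h.hν h.pow_nu
  have e3 : ∀ i : ℕ, ((2 : RN n) ^ k.val) ^ (2 * i) * ev (2 ^ k.val) (Ev (ν := ν)) =
      ev (2 ^ k.val) (Ev (ν := ν)) := fun i => by
    induction i with
    | zero => simp
    | succ i ih => linear_combination (2 ^ k.val) ^ 2 * ih + (2 ^ k.val + 1) * e1 + e2
  rw [← sum_mul, Fin.sum_univ_eq_sum_range fun i => (2 : RN n) ^ i]
  linear_combination ev (2 ^ k.val) (Ev (ν := ν)) * (mul_geom_sum (2 : RN n) e + h2) +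
    2 ^ k.val * e3 m + e1

lemma sum_eta : ∑ ρ : Fin e, 2 ^ ρ.val * eta ν ((2 : RN n) ^ k.val) = -2 * eta ν (2 ^ k.val) := by
  rw [← sum_mul, Fin.sum_univ_eq_sum_range fun i => (2 : RN n) ^ i]
  linear_combination eta ν (2 ^ k.val) * mul_geom_sum (2 : RN n) e +
    h.ann_r (mul_eta h.hν h.pow_nu)

lemma exists_lam {D : RN n} {l : ZMod n} (H : D * (1 + 2 ^ k.val) = 1 + 2 ^ l.val) :
    ∃ lam : ℕ, Odd lam ∧ lam < ν ∧ l = lam * k := by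
  obtain ⟨u, h1, h2⟩ := odd_of_dvd (L := l.val) h.e_pos ((h.eta_dvd _).1 (by
    push_cast
    linear_combination D * mul_eta h.hν h.pow_nu - eta ν (2 ^ k.val) * H))
  obtain ⟨m, h3, h4⟩ := h.inv
  refine ⟨((u * m : ℕ) : ZMod ν).val, ?_, ZMod.val_lt _, ?_⟩
  · rw [ZMod.val_natCast, Odd.mod_even_iff h.hν]
    exact h1.mul h3
  · rw [h.val_mul, Nat.cast_mul, mul_assoc, h4, ← Nat.cast_mul, mul_comm, ← h2,
      ZMod.natCast_zmod_val]

end Co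

end Pool.Agent.Lib.MP_0287c7_lc
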