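import Pool.Agent.Lib.MP_0287c7_lc.Cubic

/-! Binary weight: subadditivity, reduction modulo `2 ^ n - 1`, small weights. -/

set_option autoImplicit false

namespace Pool.Agent.Lib.MP_0287c7_lc.U

open Pool.Agent.Lib.MP_0287c7_lc

/-- binary weight -/
def W (m : ℕ) : ℕ := (Nat.digits 2 m).sum

lemma W_zero : W 0 = 0 := by simp [W]

lemma W_step (m : ℕ) : W m = m % 2 + W (m / 2) := by
  rcases Nat.eq_zero_or_pos m with rfl | h
  · simp [W]
  · exact digit_step h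

lemma W_one : W 1 = 1 := by rw [W_step]; simp [W]

lemma W_add_c (N : ℕ) : ∀ x y c : ℕ, x + y = N → c ≤ 1 → W (x + y + c) ≤ W x + W y + c := by
  induction N using Nat.strong_induction_on with
  | _ N ih =>
    intro x y c hN hc
    rcases Nat.eq_zero_or_pos N with h0 | h0
    · obtain rfl : x = 0 := by omega
      obtain rfl : y = 0 := by omega
      obtain rfl | rfl : c = 0 ∨ c = 1 := by omega
      · simp [W_zero]
      · simp [W_zero, W_one]
    · have h1 := ih (x / 2 + y / 2) (by omega) (x / 2) (y / 2) ((x % 2 + y % 2 + c) / 2) rfl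
        (by omega)
      have e : (x + y + c) / 2 = x / 2 + y / 2 + (x % 2 + y % 2 + c) / 2 := by omega
      rw [W_step (x + y + c), W_step x, W_step y, e]
      omega

lemma W_add (x y : ℕ) : W (x + y) ≤ W x + W y := W_add_c _ x y 0 rfl (by omega)

lemma W_app (h : ℕ) : ∀ x y : ℕ, x < 2 ^ h → W (x + 2 ^ h * y) = W x + W y := by
  induction h with
  | zero =>
    intro x y hx
    obtain rfl : x = 0 := by omega
    simp [W_zero]
  | succ h ih =>
    intro x y hx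
    rw [pow_succ'] at hx
    have e : (x + 2 ^ (h + 1) * y) / 2 = x / 2 + 2 ^ h * y := by
      rw [pow_succ', mul_assoc]; omega
    have e' : (x + 2 ^ (h + 1) * y) % 2 = x % 2 := by
      rw [pow_succ', mul_assoc]; omega
    rw [W_step, e, e', ih _ _ (by omega), W_step x, add_assoc]

lemma W_shift (i m : ℕ) : W (2 ^ i * m) = W m := by
  have := W_app i 0 m (by positivity)
  rwa [zero_add, W_zero, zero_add] at this

lemma W_pow (i : ℕ) : W (2 ^ i) = 1 := by
  have := W_shift i 1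
  rwa [mul_one, W_one] at this

lemma W_top (h : ℕ) : W (2 ^ h - 1) = h := by
  induction h with
  | zero => simp [W_zero]
  | succ h ih =>
    have : 1 ≤ 2 ^ h := Nat.one_le_two_pow
    have e : (2 ^ (h + 1) - 1) / 2 = 2 ^ h - 1 := by rw [pow_succ']; omega
    have e' : (2 ^ (h + 1) - 1) % 2 = 1 := by rw [pow_succ']; omega
    rw [W_step, e, e', ih, add_comm]

/-- one folding step -/
lemma fold {h m : ℕ} (hh : 0 < h) (hm : 2 ^ h ≤ m) :
    ∃ m', 0 < m' ∧ m' < m ∧ m' ≡ m [MOD 2 ^ h - 1] ∧ W m' ≤ W m := by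
  have h2 : 2 ≤ 2 ^ h := by
    calc 2 = 2 ^ 1 := rfl
      _ ≤ 2 ^ h := Nat.pow_le_pow_right (by norm_num) hh
  have h1 : 0 < m / 2 ^ h := Nat.div_pos hm (by omega)
  have e := Nat.mod_add_div m (2 ^ h)
  have h3 := Nat.mul_le_mul_right (m / 2 ^ h) h2
  refine ⟨m % 2 ^ h + m / 2 ^ h, by omega, by omega, ?_, ?_⟩
  · have : 1 ≡ 2 ^ h [MOD 2 ^ h - 1] := (Nat.modEq_iff_dvd' Nat.one_le_two_pow).2 dvd_rfl
    have h4 := (this.mul_right (m / 2 ^ h)).add_left (m % 2 ^ h)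
    rwa [one_mul, e] at h4
  · refine (W_add _ _).trans_eq ?_
    rw [← W_app h _ _ (Nat.mod_lt _ (by omega)), e]

lemma W_mod {n : ℕ} (hn : 0 < n) (m : ℕ) : W (m % (2 ^ n - 1)) ≤ W m := by
  induction m using Nat.strong_induction_on with
  | _ m ih =>
    rcases lt_trichotomy m (2 ^ n - 1) with h | h | h
    · rw [Nat.mod_eq_of_lt h]
    · rw [h, Nat.mod_self, W_zero]
      exact Nat.zero_le _
    · obtain ⟨m', -, h1, h2, h3⟩ := fold hn (m := m) (by omega)
      rw [← h2]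
      exact (ih m' h1).trans h3

lemma W_mult {h : ℕ} (m : ℕ) : 0 < m → 2 ^ h - 1 ∣ m → h ≤ W m := by
  induction m using Nat.strong_induction_on with
  | _ m ih =>
    intro h0 hd
    rcases Nat.eq_zero_or_pos h with rfl | hh
    · exact Nat.zero_le _
    by_cases h1 : m < 2 ^ h
    · have := Nat.le_of_dvd h0 hd
      rw [show m = 2 ^ h - 1 by omega, W_top]
    · obtain ⟨m', a0, a1, a2, a3⟩ := fold hh (m := m) (by omega)
      exact (ih m' a1 a0 ((a2.dvd_iff dvd_rfl).2 hd)).trans a3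

lemma of_W_one {m : ℕ} (h : W m = 1) : ∃ i, m = 2 ^ i := by
  obtain ⟨a, e, rfl, h1⟩ := digit_peel (w := 0) h
  obtain rfl := digit_zero h1
  exact ⟨a, by simp⟩

/-- numbers of weight one or two, modulo `2 ^ n - 1` -/
lemma of_W_two {n m : ℕ} (hn : 0 < n) (h0 : 0 < m) (h : W m ≤ 2) :
    ∃ i k, m ≡ 2 ^ i * (2 ^ k + 1) [MOD 2 ^ n - 1] := by
  have h1 : W m ≠ 0 := fun h => by have := digit_zero h; omega
  obtain h2 | h2 : W m = 1 ∨ W m = 2 := by omega
  · obtain ⟨i, rfl⟩ := of_W_one h2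
    refine ⟨i + (n - 1), 0, ?_⟩
    have : 1 ≡ 2 ^ n [MOD 2 ^ n - 1] := (Nat.modEq_iff_dvd' Nat.one_le_two_pow).2 dvd_rfl
    have h4 := this.mul_left (2 ^ i)
    have e : 2 ^ (i + (n - 1)) * (2 ^ 0 + 1) = 2 ^ i * 2 ^ n := by
      rw [show n = n - 1 + 1 by omega, Nat.add_sub_cancel]; ring
    rwa [mul_one, ← e] at h4
  · obtain ⟨a, e, rfl, h3⟩ := digit_peel (w := 1) h2
    obtain ⟨i, rfl⟩ := of_W_one h3
    refine ⟨a, i + 1, ?_⟩
    rw [pow_succ', add_comm]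

lemma not_dvd {n : ℕ} (hn : 3 ≤ n) (j k : ℕ) : ¬ 2 ^ n - 1 ∣ 2 ^ j * (2 ^ k + 1) := by
  intro h
  have h1 : 1 ≡ 2 ^ n [MOD 2 ^ n - 1] := (Nat.modEq_iff_dvd' Nat.one_le_two_pow).2 dvd_rfl
  have ho : Odd (2 ^ n - 1) :=
    Nat.Even.sub_odd Nat.one_le_two_pow (Nat.even_pow.2 ⟨even_two, by omega⟩) odd_one
  have h2 := (Nat.Coprime.pow_right j (Nat.coprime_two_right.2 ho)).dvd_of_dvd_mul_left h
  have h3 : 2 ^ (k % n) + 1 ≡ 2 ^ k + 1 [MOD 2 ^ n - 1] := by
    have := ((h1.pow (k / n)).mul_left (2 ^ (k % n))).add_right 1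
    rwa [one_pow, mul_one, ← pow_mul, ← pow_add, Nat.mod_add_div] at this
  have h4 := Nat.le_of_dvd (by positivity) ((h3.dvd_iff dvd_rfl).2 h2)
  have h5 : 2 ^ (k % n) ≤ 2 ^ (n - 1) :=
    Nat.pow_le_pow_right (by norm_num) (by have := Nat.mod_lt k (show 0 < n by omega); omega)
  have h6 : 2 ^ 2 ≤ 2 ^ (n - 1) := Nat.pow_le_pow_right (by norm_num) (by omega)
  have h7 : 2 ^ n = 2 * 2 ^ (n - 1) := by rw [← pow_succ']; congr 1; omega
  omega

end Pool.Agent.Lib.MP_0287c7_lc.U
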